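import Pool.Agent.H84.ND.Targets2
import Pool.Agent.H6.SM.S1

/-!
# MP_70ba79_ag, board `ndc_modules`, row S1N: the result of the first part (nodal curves)
-/

set_option autoImplicit false

namespace Pool.Agent.H81.ND

open MvPolynomial SC Pool.Agent.H27.LV Pool.Agent.H84.SM Pool.Agent.H84.ND
open Pool.Agent.H6.SM (Bd Bd.mono gp_not_isUnit)

/-- the conclusion for the curves on which `P` vanishes -/
def OkN {k : Type} [Field k] (G : MvPolynomial (Fin 3) k) (d : ℕ) (P : R2 k) : Prop :=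
  ∃ (B : ℕ) (cs : Set (A2 k)) (ps : Set (ℕ × MvPolynomial (Fin 3) k × A2 k)), cs.Finite ∧
  ps.Finite ∧ (∀ c ∈ cs, c ≠ 0 ∧ dv c = 0 ∧ ∃ e i, BH e i c) ∧
  (∀ p ∈ ps, 4 * p.1 + 4 ≤ d ∧ Conn G p.1 p.2.1 p.2.2) ∧
  ∀ (K : Type) [Field K] [Algebra k K] [Algebra.EssFiniteType k K], Algebra.trdeg k K = 1 →
  ∀ (D : Derivation k K K), D ≠ 0 → ∀ (x : Fin 3 → K) (S : Finset (DV k K)), Crv G d x S →
  evc D x P = 0 → Bd B D x S ∨
  (∃ c ∈ cs, aeval (Sum.elim x fun i => D (x i)) c = 0) ∨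
  ∃ p ∈ ps, aeval x p.2.1 * dt x (fun i => D (x i)) (fun i => D (D (x i))) +
    aeval (Sum.elim x fun i => D (x i)) p.2.2 = 0

theorem OkN.one {k : Type} [Field k] (G : MvPolynomial (Fin 3) k) (d : ℕ) : OkN G d 1 := by
  refine ⟨0, ∅, ∅, Set.finite_empty, Set.finite_empty, by simp, by simp, ?_⟩
  intro K _ _ _ _ D _ x S _ h
  rw [map_one] at h
  exact absurd h one_ne_zero

theorem OkN.mul {k : Type} [Field k] {G : MvPolynomial (Fin 3) k} {d : ℕ} {P Q : R2 k}
    (hP : OkN G d P) (hQ : OkN G d Q) : OkN G d (P * Q) := by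
  obtain ⟨B, cs, ps, h1, h2, h3, h4, h5⟩ := hP
  obtain ⟨B', cs', ps', h1', h2', h3', h4', h5'⟩ := hQ
  refine ⟨max B B', cs ∪ cs', ps ∪ ps', h1.union h1', h2.union h2', ?_, ?_, ?_⟩
  · rintro c (hc | hc)
    · exact h3 c hc
    · exact h3' c hc
  · rintro c (hc | hc)
    · exact h4 c hc
    · exact h4' c hc
  · intro K _ _ _ htr D hD x S hx h
    rw [map_mul] at h
    rcases mul_eq_zero.mp h with h | h
    · rcases h5 K htr D hD x S hx h with h | ⟨c, hc, h⟩ | ⟨p, hp, h⟩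
      · exact Or.inl (h.mono (le_max_left _ _))
      · exact Or.inr (Or.inl ⟨c, Or.inl hc, h⟩)
      · exact Or.inr (Or.inr ⟨p, Or.inl hp, h⟩)
    · rcases h5' K htr D hD x S hx h with h | ⟨c, hc, h⟩ | ⟨p, hp, h⟩
      · exact Or.inl (h.mono (le_max_right _ _))
      · exact Or.inr (Or.inl ⟨c, Or.inr hc, h⟩)
      · exact Or.inr (Or.inr ⟨p, Or.inr hp, h⟩)

theorem OkN.prod {k : Type} [Field k] {G : MvPolynomial (Fin 3) k} {d : ℕ}
    (s : Multiset (R2 k)) (h : ∀ P ∈ s, OkN G d P) : OkN G d s.prod := by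
  induction s using Multiset.induction_on with
  | empty => rw [Multiset.prod_zero]; exact OkN.one G d
  | cons a s ih =>
    rw [Multiset.prod_cons]
    exact (h a (Multiset.mem_cons_self a s)).mul
      (ih fun P hP => h P (Multiset.mem_cons_of_mem hP))

theorem deg_le_of_sec (hSCN : T_SCN) {k : Type} [Field k] [IsAlgClosed k] [CharZero k]
    (G : MvPolynomial (Fin 3) k) (d : ℕ) (hd : 1 ≤ d) (hs : Nodal G d)
    (n t M : ℕ) (N : R2 k) (ht : 1 ≤ t) (hN : IsSec G d n (-(t : ℤ)) M N)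
    (K : Type) [Field K] [Algebra k K] [Algebra.EssFiniteType k K] (htr : Algebra.trdeg k K = 1)
    (D : Derivation k K K) (hD : D ≠ 0) (x : Fin 3 → K) (S : Finset (DV k K))
    (hx : Crv G d x S) (hev : evc D x N ≠ 0) :
    ((deg k x : ℕ) : ℤ) ≤ n * (canDeg D + S.card) ∧
      (t : ℤ) * deg k x ≤ n * (canDeg D + S.card) := by
  have h1 := hSCN k G d hd hs.ird.hom hs.ird.irr.squarefree hs.nod K htr D hD x S hx n t M N hN hev
  have hdeg : (0 : ℤ) ≤ (deg k x : ℕ) := Int.natCast_nonneg _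
  have ht' : (1 : ℤ) ≤ t := by exact_mod_cast ht
  refine ⟨le_trans ?_ h1, h1⟩
  nlinarith

theorem bd_of_secN (hSCN : T_SCN) {k : Type} [Field k] [IsAlgClosed k] [CharZero k]
    (G : MvPolynomial (Fin 3) k) (d : ℕ) (hd : 1 ≤ d) (hs : Nodal G d) (hstr : Str G d)
    (n t M : ℕ) (N : R2 k) (ht : 1 ≤ t) (hN : IsSec G d n (-(t : ℤ)) M N)
    (K : Type) [Field K] [Algebra k K] [Algebra.EssFiniteType k K] (htr : Algebra.trdeg k K = 1)
    (D : Derivation k K K) (hD : D ≠ 0) (x : Fin 3 → K) (S : Finset (DV k K))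
    (hx : Crv G d x S) (hev : evc D x N ≠ 0) : Bd n D x S := by
  obtain ⟨h1, h2⟩ := deg_le_of_sec hSCN G d hd hs n t M N ht hN K htr D hD x S hx hev
  have hN0 : N ≠ 0 := by
    rintro rfl
    exact hev (map_zero _)
  have hn : 1 ≤ n := by
    by_contra hn
    have hn0 : n = 0 := by omega
    subst hn0
    have hdeg : N.natDegree = 0 := by
      by_contra hne
      obtain ⟨e, he, hb⟩ := hN.2.1
      have h3 : N.coeff N.natDegree = 0 := (hb N.natDegree).2 (by omega)
      exact hN0 (Polynomial.leadingCoeff_eq_zero.mp h3)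
    have hC : N = Polynomial.C (N.coeff 0) := Polynomial.eq_C_of_natDegree_eq_zero hdeg
    have h4 : N.coeff 0 = 0 := hstr 0 t M (N.coeff 0) ht (by rw [← hC]; exact hN)
    rw [h4, map_zero] at hC
    exact hN0 hC
  have hdeg : (0 : ℤ) ≤ (deg k x : ℕ) := Int.natCast_nonneg _
  have ht' : (1 : ℤ) ≤ t := by exact_mod_cast ht
  have hn' : (1 : ℤ) ≤ n := by exact_mod_cast hn
  have h0 : 0 ≤ canDeg D + (S.card : ℤ) := by
    by_contra hneg
    push Not at hneg
    nlinarith
  exact ⟨h0, h1⟩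

theorem evc_C {k K : Type} [Field k] [Field K] [Algebra k K] (D : Derivation k K K)
    (x : Fin 3 → K) (c : A2 k) :
    evc D x (Polynomial.C c) = aeval (Sum.elim x fun i => D (x i)) c := by
  unfold evc ev
  rw [Polynomial.coe_eval₂RingHom, Polynomial.eval₂_C]
  rfl

theorem okN_of_irreducible (hSCN : T_SCN) (hSEN : T_SEN) (hCNN : T_CNN) (hPSN : T_PSN)
    (hELI : T_ELI) {k : Type} [Field k] [IsAlgClosed k] [CharZero k]
    (G : MvPolynomial (Fin 3) k) (d : ℕ) (hd : 140 ≤ d) (hs : Nodal G d) (hstr : Str G d)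
    (P : R2 k) (hP : Irreducible P) (hinv : Inv P) (e m : ℕ) (hb : BHN e m P) : OkN G d P := by
  have hi : Irreducible G := hs.ird.irr
  by_cases hdeg : P.natDegree = 0
  · -- no `w`
    have hC : P = Polynomial.C (P.coeff 0) := Polynomial.eq_C_of_natDegree_eq_zero hdeg
    have hc0 : P.coeff 0 ≠ 0 := by
      intro h
      rw [h, map_zero] at hC
      exact hP.ne_zero hC
    refine ⟨0, {P.coeff 0}, ∅, Set.finite_singleton _, Set.finite_empty, ?_, by simp, ?_⟩
    · rintro c hc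
      rw [Set.mem_singleton_iff] at hc
      subst hc
      exact ⟨hc0, hinv 0, e, m, (hb 0).1 (by omega)⟩
    · intro K _ _ _ htr D hD x S hx h
      refine Or.inr (Or.inl ⟨P.coeff 0, Set.mem_singleton _, ?_⟩)
      rw [hC, evc_C] at h
      exact h
  · have hdeg1 : 1 ≤ P.natDegree := Nat.one_le_iff_ne_zero.mpr hdeg
    have hpsi : Psi G d 0 P ≠ 0 := fun h => hP.ne_zero (hPSN k G d hs.ird 0 P hinv h)
    obtain ⟨M', a, hna, ha⟩ := WfDvdMonoid.max_power_factor' hpsi
      (gp_not_isUnit (by omega) hs.ird.hom)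
    have hgp : gp G ≠ 0 := by
      intro h
      unfold gp at h
      rw [Polynomial.C_eq_zero] at h
      have h10 : Function.Injective (aeval (R := k) (xb (k := k))) := by
        have : (aeval (R := k) (xb (k := k))) =
            rename (R := k) (Sum.inl : Fin 3 → Fin 3 ⊕ Fin 2) := by
          apply algHom_ext
          intro i
          simp [xb]
        rw [this]
        exact rename_injective _ Sum.inl_injective
      exact hi.ne_zero (h10 (by rw [h, map_zero]))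
    have hdvd : gp G ^ M' ∣ Psi G d 0 P := ⟨a, ha⟩
    have hndvd : ¬ gp G ^ (M' + 1) ∣ Psi G d 0 P := by
      rintro ⟨b, hb'⟩
      rw [hb', pow_succ, mul_assoc] at ha
      exact hna ⟨b, (mul_left_cancel₀ (pow_ne_zero M' hgp) ha).symm⟩
    by_cases hcon : m = 3 ∧ 3 * ((d : ℤ) - 3) < 4 * ((d : ℤ) * M' - e - 3)
    · obtain ⟨hm, hlt⟩ := hcon
      subst hm
      obtain ⟨α, A, b, hα, hconn, hA⟩ := hCNN k G d (by omega) hs e M' P hP hdeg1 hinv hb hdvd hlt
      refine ⟨0, ∅, {(α, A, b)}, Set.finite_empty, Set.finite_singleton _, by simp, ?_, ?_⟩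
      · rintro p hp
        rw [Set.mem_singleton_iff] at hp
        subst hp
        exact ⟨hα, hconn⟩
      · intro K _ _ _ htr D hD x S hx h
        exact Or.inr (Or.inr ⟨_, Set.mem_singleton _, hA K D x h⟩)
    · have hm3 : m = 3 → 4 * ((d : ℤ) * M' - e - m) ≤ 3 * ((d : ℤ) - 3) := by
        intro hm
        by_contra hlt
        push Not at hlt
        subst hm
        exact hcon ⟨rfl, by exact_mod_cast hlt⟩
      obtain ⟨n, t, M, N, ht, hN, hPN⟩ := hSEN k G d hd hs.ird hstr e m M' P hP hdeg1 hinv hb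
        hndvd hdvd hm3
      obtain ⟨e', he', hbN⟩ := hN.2.1
      obtain ⟨c, hc0, hcd, hcb, hc⟩ := hELI k e m e' n P N hP hdeg1 hinv hb hN.1 hbN hPN
      refine ⟨n, {c}, ∅, Set.finite_singleton _, Set.finite_empty, ?_, by simp, ?_⟩
      · rintro c' hc'
        rw [Set.mem_singleton_iff] at hc'
        subst hc'
        exact ⟨hc0, hcd, hcb⟩
      · intro K _ _ _ htr D hD x S hx h
        by_cases hev : evc D x N = 0
        · exact Or.inr (Or.inl ⟨c, Set.mem_singleton _, hc K D x h hev⟩)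
        · exact Or.inl (bd_of_secN hSCN G d (by omega) hs hstr n t M N ht hN K htr D hD x S hx
            hev)

/-- a negative section -/
theorem exists_neg_sec (hNDN : T_NDN) (hEME : T_EME) {k : Type} [Field k] [IsAlgClosed k]
    [CharZero k] (G : MvPolynomial (Fin 3) k) (d : ℕ) (hd : 140 ≤ d) (hs : Ird G d)
    (hstr : Str G d) :
    ∃ (n t M : ℕ) (N : R2 k), 1 ≤ t ∧ N ≠ 0 ∧ IsSec G d n (-(t : ℤ)) M N := by
  obtain ⟨m, hm, h⟩ := hNDN k G d hd hs hstr
  have h1 := h 0 0 (by omega) le_rfl (by omega)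
  have h2 : 0 < Module.finrank k (E G d (36 * m) (-(((d - 3) * m : ℕ) : ℤ))) := by omega
  have h3 : E G d (36 * m) (-(((d - 3) * m : ℕ) : ℤ)) ≠ ⊥ := by
    intro h4
    rw [h4] at h2
    simp at h2
  obtain ⟨Q, hQ, hQ0⟩ := Submodule.exists_mem_ne_zero_of_ne_bot h3
  obtain ⟨M, N, hN, hQN⟩ := (hEME k G d (by omega) hs.hom hs.irr.ne_zero _ _ Q).mp hQ
  refine ⟨36 * m, (d - 3) * m, M, N, ?_, ?_, hN⟩
  · exact Nat.mul_pos (by omega) hm
  · rintro rfl
    exact hQ0 (by rw [hQN, sec, Polynomial.map_zero, mul_zero])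

theorem pf_S1N (hSCN : T_SCN) (hSEN : T_SEN) (hCNN : T_CNN) (hPSN : T_PSN) (hNDN : T_NDN)
    (hFAC : T_FAC) (hELI : T_ELI) (hEME : T_EME) : Pool.Agent.H84.ND.T_S1N := by
  intro k _ _ _ G d hd hs
  by_cases hstr : Str G d
  · obtain ⟨n0, t0, M0, N0, ht0, hN0, hsec0⟩ := exists_neg_sec hNDN hEME G d hd hs.ird hstr
    obtain ⟨e0, he0, hb0⟩ := hsec0.2.1
    obtain ⟨s, hass, hs'⟩ := hFAC k e0 n0 N0 hN0 hsec0.1 hb0
    have hOk : OkN G d s.prod := OkN.prod s fun P hP => by
      obtain ⟨h1, h2, e', n', h3⟩ := hs' P hP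
      exact okN_of_irreducible hSCN hSEN hCNN hPSN hELI G d hd hs hstr P h1 h2 e' n' h3
    obtain ⟨B, cs, ps, h1, h2, h3, h4, h5⟩ := hOk
    refine ⟨max n0 B, cs, ps, h1, h2, h3, h4, ?_⟩
    intro K _ _ _ htr D hD x S hx
    by_cases hev : evc D x N0 = 0
    · have hev' : evc D x s.prod = 0 := by
        obtain ⟨u, hu⟩ := hass
        rw [← hu, map_mul] at hev
        rcases mul_eq_zero.mp hev with h | h
        · exact h
        · exact absurd h ((u.isUnit.map (evc D x)).ne_zero)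
      rcases h5 K htr D hD x S hx hev' with h | h | h
      · exact Or.inl (h.mono (le_max_right _ _)).2
      · exact Or.inr (Or.inl h)
      · exact Or.inr (Or.inr h)
    · exact Or.inl ((bd_of_secN hSCN G d (by omega) hs hstr n0 t0 M0 N0 ht0 hsec0 K htr D hD x S
        hx hev).mono (le_max_left _ _)).2
  · unfold Str at hstr
    push Not at hstr
    obtain ⟨n, t, M, c, ht, hN, hc0⟩ := hstr
    obtain ⟨e, he, hb⟩ := hN.2.1
    refine ⟨n, {c}, ∅, Set.finite_singleton _, Set.finite_empty, ?_, by simp, ?_⟩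
    · rintro c' hc'
      rw [Set.mem_singleton_iff] at hc'
      subst hc'
      refine ⟨hc0, ?_, e, n, ?_⟩
      · have h1 := hN.1 0
        rwa [Polynomial.coeff_C_zero] at h1
      · have h1 := (hb 0).1 (by omega)
        rwa [Polynomial.coeff_C_zero] at h1
    · intro K _ _ _ htr D hD x S hx
      by_cases hev : evc D x (Polynomial.C c) = 0
      · rw [evc_C] at hev
        exact Or.inr (Or.inl ⟨c, Set.mem_singleton _, hev⟩)
      · exact Or.inl (deg_le_of_sec hSCN G d (by omega) hs n t M _ ht hN K htr D hD x S hx hev).1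

end Pool.Agent.H81.ND
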